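import Pool.Agent.Lib.MP_524519_ag.DU5.All.Main

set_option autoImplicit false

open MvPowerSeries

namespace Pool.Agent.Results.MP_524519_ag.Durfee

/-- Formal power series in the three variables `x_0, x_1, x_2` over `ℂ`. -/
abbrev Series := MvPowerSeries (Fin 3) ℂ

/-- The value of `h` at a point `x` with coordinates in `K⟦u⟧`. -/
noncomputable def value {K : Type} [Field K] [Algebra ℂ K] (x : Fin 3 → PowerSeries K)
    (h : Series) : PowerSeries K :=
  MvPowerSeries.subst x h

/-- The derivation of `K⟦u⟧` which applies `δ` to the coefficients. -/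
noncomputable def coeffDeriv {K : Type} [Field K] [Algebra ℂ K] (δ : Derivation ℂ K K)
    (x : PowerSeries K) : PowerSeries K :=
  PowerSeries.mk fun m => δ (PowerSeries.coeff m x)

/-- The value of the 2-form `dx_{i+1} ∧ dx_{i+2}` on the pair of vector fields `∂/∂u`, `δ`
at the point `x`. -/
noncomputable def minor {K : Type} [Field K] [Algebra ℂ K] (δ : Derivation ℂ K K)
    (x : Fin 3 → PowerSeries K) (i : Fin 3) : PowerSeries K :=
  PowerSeries.derivative K (x (i + 1)) * coeffDeriv δ (x (i + 2)) -
    PowerSeries.derivative K (x (i + 2)) * coeffDeriv δ (x (i + 1))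

/-- The 2-form `h · ω`, where `ω = dx_{i+1} ∧ dx_{i+2} / (∂f/∂x_i)` is the residue form of the
surface `f = 0` (it does not depend on `i`), has no pole along the point `x` of the surface:
its value `g` on `∂/∂u`, `δ` is a power series. -/
def NoPole {K : Type} [Field K] [Algebra ℂ K] (f h : Series) (δ : Derivation ℂ K K)
    (x : Fin 3 → PowerSeries K) : Prop :=
  ∃ g : PowerSeries K, ∀ i, g * value x (pderiv ℂ i f) = value x h * minor δ x i

/-- The adjoint ideal of the surface `f = 0` at the origin: the ideal of the `h` such that the
2-form `h · ω` has no pole along any point of the surface that is centred at the origin, with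
coordinates in `K⟦u⟧`, where `K` is a field over `ℂ` with a `ℂ`-derivation `δ` (these `h` form an
ideal, see `mem_adjointIdeal_iff`).

These are the `h` for which `h · ω` extends to a holomorphic 2-form on a resolution: the
exceptional curves `E` of a resolution are such points (`K` the function field of `E`, `u` a local
equation of `E`), and, conversely, a point of the surface with coordinates in `K⟦u⟧` lifts to the
resolution, by the valuative criterion of properness. -/
noncomputable def adjointIdeal (f : Series) : Ideal Series :=
  Ideal.span {h | ∀ (K : Type) [Field K] [Algebra ℂ K] (δ : Derivation ℂ K K)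
    (x : Fin 3 → PowerSeries K), (∀ i, PowerSeries.constantCoeff (x i) = 0) → value x f = 0 →
    NoPole f h δ x}

/-- The geometric genus of the surface singularity `f = 0`: the dimension of the space of 2-forms
outside of the origin modulo those that extend to a resolution. -/
noncomputable def geometricGenus (f : Series) : ℕ∞ :=
  Cardinal.toENat (Module.rank ℂ (Series ⧸ adjointIdeal f))

/-- The Milnor number: the dimension of `ℂ⟦x_0, x_1, x_2⟧ / (∂f/∂x_0, ∂f/∂x_1, ∂f/∂x_2)`. -/
noncomputable def milnorNumber (f : Series) : ℕ∞ :=
  Cardinal.toENat (Module.rank ℂ (Series ⧸ Ideal.span (Set.range fun i => pderiv ℂ i f)))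

theorem noPole_iff {K : Type} [Field K] [Algebra ℂ K] (f h : Series) (δ : Derivation ℂ K K)
    (x : Fin 3 → PowerSeries K) : NoPole f h δ x ↔ Pool.Agent.DU5.OrdGe 0 f h δ x := by
  unfold NoPole Pool.Agent.DU5.OrdGe
  simp only [pow_zero, one_mul]
  exact Iff.rfl

theorem adjointIdeal_eq (f : Series) : adjointIdeal f = Pool.Agent.DU5.adj f := by
  have e : {h : Series | ∀ (K : Type) [Field K] [Algebra ℂ K] (δ : Derivation ℂ K K)
      (x : Fin 3 → PowerSeries K), (∀ i, PowerSeries.constantCoeff (x i) = 0) → value x f = 0 →
      NoPole f h δ x} = (Pool.Agent.DU5.adj f : Set Series) := by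
    ext h
    constructor
    · intro hh K _ _ δ x hx hf
      exact (noPole_iff f h δ x).1 (hh K δ x hx hf)
    · intro hh K _ _ δ x hx hf
      exact (noPole_iff f h δ x).2 (hh K δ x hx hf)
  unfold adjointIdeal
  rw [e]
  exact Submodule.span_eq (Pool.Agent.DU5.adj f)

theorem mem_adjointIdeal_iff (f h : Series) : h ∈ adjointIdeal f ↔
    ∀ (K : Type) [Field K] [Algebra ℂ K] (δ : Derivation ℂ K K) (x : Fin 3 → PowerSeries K),
      (∀ i, PowerSeries.constantCoeff (x i) = 0) → value x f = 0 → NoPole f h δ x := by
  rw [adjointIdeal_eq]
  constructor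
  · intro hh K _ _ δ x hx hf
    exact (noPole_iff f h δ x).2 (hh K δ x hx hf)
  · intro hh K _ _ δ x hx hf
    exact (noPole_iff f h δ x).1 (hh K δ x hx hf)

/-- **Theorem** (Durfee's conjecture for surface singularities in `ℂ³`). Let `f` be a power series
in three variables over `ℂ` without constant term (for instance the germ of a holomorphic function
with an isolated singularity at the origin). Then `6 p_g ≤ μ`. -/
theorem result (f : MvPowerSeries (Fin 3) ℂ) (h0 : constantCoeff f = 0) :
    6 * geometricGenus f ≤ milnorNumber f := by
  unfold geometricGenus milnorNumber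
  rw [adjointIdeal_eq]
  exact Pool.Agent.DU5.All.main f h0

end Pool.Agent.Results.MP_524519_ag.Durfee
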