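import Pool.Agent.Lib.MP_524519_ag.DUR.All.Main

set_option autoImplicit false

open MeasureTheory
open scoped Pointwise

namespace Pool.Agent.Results.MP_524519_ag.NewtonPolyhedra

/-- The Newton polyhedron of a set of exponents: the convex hull of `A` plus the octant. -/
def newtonPolyhedron (A : Set (Fin 3 → ℕ)) : Set (Fin 3 → ℝ) :=
  convexHull ℝ ((fun (u : Fin 3 → ℕ) (i : Fin 3) => (u i : ℝ)) '' A) +
    {x : Fin 3 → ℝ | ∀ i, 0 ≤ x i}

/-- Kouchnirenko's Newton number `6 V₃ - 2 V₂ + V₁ - 1`: here `V₃` is the volume of the part of the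
octant outside of `P`, `V₂` is the sum of the areas of the three plane regions which are cut out of
it by the coordinate planes, and `V₁` is the sum of the lengths on the three axes. -/
noncomputable def newtonNumber (P : Set (Fin 3 → ℝ)) : ℝ :=
  6 * volume.real {x : Fin 3 → ℝ | (∀ i, 0 ≤ x i) ∧ x ∉ P}
    - 2 * ∑ i : Fin 3, volume.real {y : Fin 2 → ℝ | (∀ j, 0 ≤ y j) ∧
        (i.insertNth (0 : ℝ) y : Fin 3 → ℝ) ∉ P}
    + ∑ i : Fin 3, volume.real {t : ℝ | 0 ≤ t ∧ (Pi.single i t : Fin 3 → ℝ) ∉ P} - 1

/-- The number of the lattice points with positive coordinates that are not interior points of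
`P`. -/
noncomputable def genusNumber (P : Set (Fin 3 → ℝ)) : ℕ :=
  {m : Fin 3 → ℕ | (∀ i, 0 < m i) ∧ (fun i => (m i : ℝ)) ∉ interior P}.ncard

/-- **Theorem** (Durfee's inequality for Newton polyhedra). Let `A` be a finite set of exponents
of monomials in three variables which does not contain `0` and which contains an exponent on each
of the three coordinate axes. Then `6 p ≤ ν`, where `ν` is the Newton number and `p` is the number
of the positive lattice points that are not interior points of the Newton polyhedron of `A`.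

By the theorems of Kouchnirenko (`μ = ν`) and Merle-Teissier (`p_g = p`) this is the inequality
`6 p_g ≤ μ` for all convenient Newton non-degenerate surface singularities. -/
theorem result (A : Finset (Fin 3 → ℕ)) (hA : ∀ i, ∃ n : ℕ, Pi.single i n ∈ A)
    (h0 : (0 : Fin 3 → ℕ) ∉ A) :
    6 * (genusNumber (newtonPolyhedron (A : Set (Fin 3 → ℕ))) : ℝ) ≤
      newtonNumber (newtonPolyhedron (A : Set (Fin 3 → ℕ))) :=
  Pool.Agent.DUR.main A hA h0

end Pool.Agent.Results.MP_524519_ag.NewtonPolyhedra
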